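import Mathlib

open MeasureTheory Set Filter Topology
open scoped ENNReal NNReal RealInnerProductSpace

namespace Pool.Agent.Q287.SA

/-- `ℝ^d` with its Euclidean structure. -/
abbrev E (d : ℕ) : Type := EuclideanSpace ℝ (Fin d)

/-- The rotation-invariant probability measure on the unit sphere of `ℝ^d` (`d ≥ 1`), viewed as a
measure on `ℝ^d`: Mathlib's surface measure `toSphere`, normalised to total mass one. -/
noncomputable def sphereLaw (d : ℕ) : Measure (E d) :=
  (((volume : Measure (E d)).toSphere univ)⁻¹ • (volume : Measure (E d)).toSphere).map Subtype.val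

/-- The positive hull `pos(U_1, ..., U_d)`. -/
def posHull {d : ℕ} (U : Fin d → E d) : Set (E d) :=
  {x | ∃ c : Fin d → ℝ, (∀ i, 0 ≤ c i) ∧ x = ∑ i, c i • U i}

/-- The solid angle `α(C) = σ(C ∩ sphere)`. -/
noncomputable def solidAngle {d : ℕ} (C : Set (E d)) : ℝ := (sphereLaw d).real C

/-- The law of `(U_1, ..., U_d)`, independent with the uniform law on the sphere. -/
noncomputable def iidSphere (d : ℕ) : Measure (Fin d → E d) := Measure.pi fun _ => sphereLaw d

/-- `2^d α_d`, with `α_d = α(pos(U_1, ..., U_d))`. -/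
noncomputable def scaledAngle (d : ℕ) (U : Fin d → E d) : ℝ := 2 ^ d * solidAngle (posHull U)

end Pool.Agent.Q287.SA
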