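import Mathlib
import Pool.Agent.Q287.SA.Defs

open MeasureTheory Set Filter Topology
open scoped ENNReal NNReal RealInnerProductSpace Pointwise

namespace Pool.Agent.Q287.SA

lemma sphereLaw_apply (d : ℕ) {s : Set (E d)} (hs : MeasurableSet s) :
    sphereLaw d s = ((volume : Measure (E d)).toSphere univ)⁻¹ *
      ((Module.finrank ℝ (E d) : ℝ≥0∞) *
        volume (Ioo (0 : ℝ) 1 • (Metric.sphere (0 : E d) 1 ∩ s))) := by
  unfold sphereLaw
  rw [Measure.map_apply measurable_subtype_coe hs, Measure.smul_apply, smul_eq_mul,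
    Measure.toSphere_apply' _ (measurable_subtype_coe hs), Subtype.image_preimage_coe]

instance (n : ℕ) : IsProbabilityMeasure (sphereLaw (n + 1)) := by
  unfold sphereLaw
  have h0 : (volume : Measure (E (n+1))).toSphere univ ≠ 0 := by
    have : (volume : Measure (E (n+1))).toSphere ≠ 0 := Measure.toSphere_ne_zero _
    exact fun h => this (Measure.measure_univ_eq_zero.1 h)
  have h1 : (volume : Measure (E (n+1))).toSphere univ ≠ ⊤ := measure_ne_top _ _
  have : IsProbabilityMeasure (((volume : Measure (E (n+1))).toSphere univ)⁻¹ •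
      (volume : Measure (E (n+1))).toSphere) := by
    constructor
    rw [Measure.smul_apply, smul_eq_mul, ENNReal.inv_mul_cancel h0 h1]
  exact Measure.isProbabilityMeasure_map measurable_subtype_coe.aemeasurable

instance (n : ℕ) : IsFiniteMeasure (sphereLaw (n + 1)) := IsZeroOrProbabilityMeasure.toIsFiniteMeasure _

instance (n : ℕ) : SigmaFinite (sphereLaw (n + 1)) := IsFiniteMeasure.toSigmaFinite _

instance (n : ℕ) : SFinite (sphereLaw (n + 1)) := inferInstance

lemma sphereLaw_rot (d : ℕ) (R : E d ≃ₗᵢ[ℝ] E d) :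
    MeasurePreserving R (sphereLaw d) (sphereLaw d) := by
  refine ⟨R.continuous.measurable, ?_⟩
  ext s hs
  rw [Measure.map_apply R.continuous.measurable hs,
    sphereLaw_apply d (R.continuous.measurable hs), sphereLaw_apply d hs]
  have h1 : Ioo (0 : ℝ) 1 • (Metric.sphere (0 : E d) 1 ∩ R ⁻¹' s)
      = R ⁻¹' (Ioo (0 : ℝ) 1 • (Metric.sphere (0 : E d) 1 ∩ s)) := by
    ext x
    simp only [Set.mem_smul, Set.mem_preimage, Set.mem_inter_iff, mem_sphere_zero_iff_norm]
    constructor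
    · rintro ⟨c, hc, y, ⟨hy1, hy2⟩, rfl⟩
      exact ⟨c, hc, R y, ⟨by simpa using hy1, hy2⟩, by simp⟩
    · rintro ⟨c, hc, y, ⟨hy1, hy2⟩, hx⟩
      refine ⟨c, hc, R.symm y, ⟨by simpa using hy1, by simpa using hy2⟩, ?_⟩
      have : x = R.symm (c • y) := by rw [hx]; simp
      rw [this]; simp
  rw [h1, (R.measurePreserving).measure_preimage_emb]
  exact R.toHomeomorph.measurableEmbedding

lemma sphereLaw_submodule (d : ℕ) (p : Submodule ℝ (E d)) (hp : p ≠ ⊤) :
    sphereLaw d (p : Set (E d)) = 0 := by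
  rw [sphereLaw_apply d (Submodule.closed_of_finiteDimensional p).measurableSet]
  have h : volume (Ioo (0 : ℝ) 1 • (Metric.sphere (0 : E d) 1 ∩ (p : Set (E d)))) = 0 := by
    refine measure_mono_null ?_ (Measure.addHaar_submodule volume p hp)
    rintro x ⟨c, hc, y, ⟨hy1, hy2⟩, rfl⟩
    exact p.smul_mem c hy2
  rw [h]; simp

lemma sphereLaw_ker (d : ℕ) (l : E d →ₗ[ℝ] ℝ) (hl : l ≠ 0) :
    ∀ᵐ x ∂sphereLaw d, l x ≠ 0 := by
  have h := sphereLaw_submodule d (LinearMap.ker l) (by
    intro h; exact hl (LinearMap.ker_eq_top.1 h))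
  rw [ae_iff]
  refine measure_mono_null ?_ h
  intro x hx
  simpa using hx

lemma sphereLaw_ker' (d : ℕ) (l : E d →ₗ[ℝ] ℝ) (x : E d) (hl : l x ≠ 0) :
    ∀ᵐ x ∂sphereLaw d, l x ≠ 0 :=
  sphereLaw_ker d l (by rintro rfl; simp at hl)

end Pool.Agent.Q287.SA
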