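import Mathlib
import Pool.Agent.Q287.SA.Sphere

open MeasureTheory Set Filter Topology
open scoped ENNReal NNReal RealInnerProductSpace Pointwise

namespace Pool.Agent.Q287.SA

/-- The determinant of `d` vectors of `ℝ^d`. -/
noncomputable def De {d : ℕ} : E d [⋀^Fin d]→ₗ[ℝ] ℝ :=
  (EuclideanSpace.basisFun (Fin d) ℝ).toBasis.det

lemma continuous_De {d : ℕ} : Continuous (fun U : Fin d → E d => De U) := by
  simp only [De, Module.Basis.det_apply]
  refine Continuous.matrix_det ?_
  refine continuous_matrix ?_
  intro i j
  simp only [Module.Basis.toMatrix_apply, OrthonormalBasis.coe_toBasis_repr_apply,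
    EuclideanSpace.basisFun_repr]
  fun_prop

lemma measurable_De {d : ℕ} : Measurable (fun U : Fin d → E d => De U) :=
  continuous_De.measurable

lemma measurable_DD {d : ℕ} (k : Fin d) :
    Measurable (fun p : (Fin d → E d) × E d => De (Function.update p.1 k p.2)) :=
  (continuous_De.comp (continuous_fst.update k continuous_snd)).measurable

lemma De_sum {d : ℕ} (U : Fin d → E d) (c : Fin d → ℝ) (k : Fin d) :
    De (Function.update U k (∑ j, c j • U j)) = c k * De U := by
  have h1 : De (Function.update U k (∑ j, c j • U j))
      = ∑ j, c j * De (Function.update U k (U j)) := by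
    rw [AlternatingMap.map_update_sum]
    refine Finset.sum_congr rfl fun j _ => ?_
    rw [AlternatingMap.map_update_smul, smul_eq_mul]
  rw [h1, Finset.sum_eq_single k]
  · rw [Function.update_eq_self]
  · intro j _ hj
    have : De (Function.update U k (U j)) = 0 := by
      refine De.map_eq_zero_of_eq _ (i := j) (j := k) ?_ hj
      simp [Function.update_of_ne hj]
    rw [this, mul_zero]
  · intro h; exact absurd (Finset.mem_univ k) h

lemma exists_coord {d : ℕ} {U : Fin d → E d} (hU : De U ≠ 0) (x : E d) :
    ∃ c : Fin d → ℝ, x = ∑ j, c j • U j := by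
  have h := ((EuclideanSpace.basisFun (Fin d) ℝ).toBasis.is_basis_iff_det (v := U)).2
    (isUnit_iff_ne_zero.2 hU)
  have hx : x ∈ Submodule.span ℝ (Set.range U) := by rw [h.2]; trivial
  obtain ⟨c, hc⟩ := (Submodule.mem_span_range_iff_exists_fun ℝ).1 hx
  exact ⟨c, hc.symm⟩

/-- The sign attached to a boolean. -/
def bs (b : Bool) : ℝ := if b then 1 else -1

lemma bs_mul_self (b : Bool) : bs b * bs b = 1 := by cases b <;> norm_num [bs]
lemma bs_abs (b : Bool) : |bs b| = 1 := by cases b <;> norm_num [bs]
lemma bs_not (b : Bool) : bs (!b) = - bs b := by cases b <;> norm_num [bs]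

/-- The pattern of signs of the coordinates of `x` in the basis `U`. -/
noncomputable def pat {d : ℕ} (U : Fin d → E d) (x : E d) : Fin d → Bool :=
  fun k => decide (0 < De (Function.update U k x) * De U)

lemma mem_posHull {d : ℕ} {U : Fin d → E d} (hU : De U ≠ 0) (ε : Fin d → Bool) (x : E d) :
    x ∈ posHull (fun i => bs (ε i) • U i) ↔
      ∀ k, 0 ≤ bs (ε k) * (De (Function.update U k x) * De U) := by
  constructor
  · rintro ⟨c, hc, hx⟩ k
    have hx' : x = ∑ i, (c i * bs (ε i)) • U i := by
      rw [hx]; refine Finset.sum_congr rfl fun i _ => ?_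
      rw [smul_smul]
    rw [hx', De_sum]
    have : bs (ε k) * (c k * bs (ε k) * De U * De U) = c k * (bs (ε k) * bs (ε k)) * (De U * De U) := by
      ring
    rw [this, bs_mul_self, mul_one]
    exact mul_nonneg (hc k) (mul_self_nonneg _)
  · intro h
    obtain ⟨c, hx⟩ := exists_coord hU x
    refine ⟨fun i => c i * bs (ε i), fun k => ?_, ?_⟩
    · have h2 := h k
      rw [hx, De_sum] at h2
      have h3 : 0 < De U * De U := mul_self_pos.2 hU
      have : bs (ε k) * (c k * De U * De U) = (c k * bs (ε k)) * (De U * De U) := by ring
      rw [this] at h2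
      exact nonneg_of_mul_nonneg_left h2 h3
    · conv_lhs => rw [hx]
      refine Finset.sum_congr rfl fun i _ => ?_
      rw [smul_smul, mul_assoc, bs_mul_self, mul_one]

lemma mem_posHull_iff {d : ℕ} {U : Fin d → E d} (hU : De U ≠ 0) (ε : Fin d → Bool) (x : E d)
    (hx : ∀ k, De (Function.update U k x) ≠ 0) :
    x ∈ posHull (fun i => bs (ε i) • U i) ↔ ε = pat U x := by
  rw [mem_posHull hU, funext_iff]
  refine forall_congr' fun k => ?_
  have h1 : De (Function.update U k x) * De U ≠ 0 := mul_ne_zero (hx k) hU
  unfold pat
  cases hε : ε k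
  · simp only [bs, Bool.false_eq_true, if_false]
    rw [eq_comm, decide_eq_false_iff_not, not_lt]
    constructor
    · intro h; linarith
    · intro h; linarith
  · simp only [bs, if_true, one_mul]
    rw [eq_comm, decide_eq_true_iff]
    exact ⟨fun h => lt_of_le_of_ne h (Ne.symm h1), fun h => h.le⟩

lemma ae_DD {d : ℕ} {U : Fin d → E d} (hU : De U ≠ 0) :
    ∀ᵐ x ∂sphereLaw d, ∀ k, De (Function.update U k x) ≠ 0 := by
  rw [ae_all_iff]
  intro k
  refine sphereLaw_ker' d (De.toMultilinearMap.toLinearMap U k) (U k) ?_
  simpa using hU

instance (n : ℕ) : IsProbabilityMeasure (iidSphere (n + 1)) := by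
  unfold iidSphere; infer_instance

/-- Replacing one of the vectors by an independent copy does not change the law. -/
lemma resample (n : ℕ) (k : Fin (n + 1)) :
    MeasurePreserving (fun p : (Fin (n + 1) → E (n + 1)) × E (n + 1) => Function.update p.1 k p.2)
      ((iidSphere (n + 1)).prod (sphereLaw (n + 1))) (iidSphere (n + 1)) := by
  have hm : Measurable (fun p : (Fin (n + 1) → E (n + 1)) × E (n + 1) =>
      Function.update p.1 k p.2) := (continuous_fst.update k continuous_snd).measurable
  refine ⟨hm, ?_⟩
  symm
  unfold iidSphere
  refine Measure.pi_eq fun s hs => ?_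
  rw [Measure.map_apply hm (MeasurableSet.univ_pi hs)]
  have h1 : (fun p : (Fin (n + 1) → E (n + 1)) × E (n + 1) => Function.update p.1 k p.2) ⁻¹'
      (univ.pi s) = (univ.pi (Function.update s k univ)) ×ˢ (s k) := by
    ext ⟨U, x⟩
    simp only [mem_preimage, Set.mem_pi, mem_univ, forall_true_left, mem_prod]
    constructor
    · intro h
      refine ⟨fun i => ?_, by simpa using h k⟩
      by_cases hi : i = k
      · subst hi; simp
      · have := h i
        rw [Function.update_of_ne hi] at this ⊢; exact this
    · rintro ⟨h, h2⟩ i
      by_cases hi : i = k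
      · subst hi; simpa using h2
      · have := h i
        rw [Function.update_of_ne hi] at this ⊢; exact this
  rw [h1, Measure.prod_prod, Measure.pi_pi]
  rw [Finset.prod_eq_mul_prod_sdiff_singleton_of_mem (Finset.mem_univ k)
      (f := fun i => (sphereLaw (n + 1)) (Function.update s k univ i)),
    Finset.prod_eq_mul_prod_sdiff_singleton_of_mem (Finset.mem_univ k)
      (f := fun i => (sphereLaw (n + 1)) (s i))]
  simp only [Function.update_self, measure_univ, one_mul]
  rw [mul_comm]
  congr 1
  refine Finset.prod_congr rfl fun i hi => ?_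
  have : i ≠ k := by simpa using hi
  rw [Function.update_of_ne this]

lemma ae_De (n : ℕ) : ∀ᵐ U ∂iidSphere (n + 1), De U ≠ 0 := by
  set b := (EuclideanSpace.basisFun (Fin (n + 1)) ℝ).toBasis with hb
  let H : ℕ → (Fin (n + 1) → E (n + 1)) → (Fin (n + 1) → E (n + 1)) :=
    fun k U i => if i.val < k then U i else b i
  have hHm : ∀ k, Continuous (H k) := by
    intro k
    refine continuous_pi fun i => ?_
    by_cases hi : i.val < k
    · simp only [H, hi, if_true]; fun_prop
    · simp only [H, hi, if_false]; fun_prop
  have key : ∀ k, k ≤ n + 1 → ∀ᵐ U ∂iidSphere (n + 1), De (H k U) ≠ 0 := by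
    intro k
    induction k with
    | zero =>
      intro _
      refine Filter.Eventually.of_forall fun U => ?_
      have : H 0 U = b := by funext i; simp [H]
      rw [this]
      have : De (b : Fin (n+1) → E (n+1)) = 1 := by
        unfold De; exact b.det_self
      rw [this]; exact one_ne_zero
    | succ k ih =>
      intro hk
      have ih := ih (by omega)
      let kk : Fin (n + 1) := ⟨k, by omega⟩
      have hms : MeasurableSet {U : Fin (n + 1) → E (n + 1) | De (H (k + 1) U) ≠ 0} :=
        ((continuous_De.comp (hHm (k+1))).measurable (measurableSet_singleton 0)).compl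
      have hupd : ∀ (U : Fin (n + 1) → E (n + 1)) (x : E (n + 1)),
          H (k + 1) (Function.update U kk x) = Function.update (H k U) kk x := by
        intro U x
        funext i
        by_cases hi : i = kk
        · subst hi; simp [H, kk]
        · have hi' : i.val ≠ k := fun h => hi (Fin.ext h)
          rw [Function.update_of_ne hi]
          by_cases h2 : i.val < k
          · have h3 : i.val < k + 1 := by omega
            simp only [H, h2, h3, if_true]
            rw [Function.update_of_ne hi]
          · have h3 : ¬ i.val < k + 1 := by omega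
            simp only [H, h2, h3, if_false]
      rw [← (resample n kk).map_eq, ae_map_iff (resample n kk).measurable.aemeasurable hms]
      have hms2 : MeasurableSet {p : (Fin (n + 1) → E (n + 1)) × E (n + 1) |
          De (H (k + 1) (Function.update p.1 kk p.2)) ≠ 0} := (resample n kk).measurable hms
      refine (Measure.ae_prod_mem_iff_ae_ae_mem hms2).2 ?_
      filter_upwards [ih] with U hU
      have h4 := sphereLaw_ker' (n + 1) (De.toMultilinearMap.toLinearMap (H k U) kk) (b kk) (by
        have : Function.update (H k U) kk (b kk) = H k U := by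
          have : H k U kk = b kk := by simp [H, kk]
          rw [← this, Function.update_eq_self]
        simpa [this] using hU)
      filter_upwards [h4] with x hx
      rw [hupd]
      simpa using hx
  have h := key (n + 1) le_rfl
  filter_upwards [h] with U hU
  have : H (n + 1) U = U := by
    funext i
    have := i.isLt
    simp only [H, this, if_true]
  rwa [this] at hU

end Pool.Agent.Q287.SA
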