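import Mathlib
import Pool.Agent.Q287.SA.Det

open MeasureTheory Set Filter Topology
open scoped ENNReal NNReal InnerProductSpace Pointwise

namespace Pool.Agent.Q287.SA

/-- The sign, with value `-1` at `0`. -/
noncomputable def sg (x : ℝ) : ℝ := if 0 < x then 1 else -1

lemma sg_pos {x : ℝ} (h : 0 < x) : sg x = 1 := by simp [sg, h]
lemma sg_nonpos {x : ℝ} (h : x ≤ 0) : sg x = -1 := by simp [sg, not_lt.2 h]
lemma sg_mul_self (x : ℝ) : sg x * sg x = 1 := by unfold sg; split_ifs <;> norm_num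
lemma sg_abs (x : ℝ) : |sg x| = 1 := by unfold sg; split_ifs <;> norm_num
lemma sg_neg {x : ℝ} (h : x ≠ 0) : sg (-x) = - sg x := by
  rcases lt_or_gt_of_ne h with h | h
  · rw [sg_pos (by linarith), sg_nonpos h.le]; norm_num
  · rw [sg_nonpos (by linarith), sg_pos h]
lemma sg_mul {x y : ℝ} (hx : x ≠ 0) (hy : y ≠ 0) : sg (x * y) = sg x * sg y := by
  rcases lt_or_gt_of_ne hx with h | h <;> rcases lt_or_gt_of_ne hy with h' | h'
  · rw [sg_pos (mul_pos_of_neg_of_neg h h'), sg_nonpos h.le, sg_nonpos h'.le]; norm_num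
  · rw [sg_nonpos (mul_neg_of_neg_of_pos h h').le, sg_nonpos h.le, sg_pos h']; norm_num
  · rw [sg_nonpos (mul_neg_of_pos_of_neg h h').le, sg_pos h, sg_nonpos h'.le]; norm_num
  · rw [sg_pos (mul_pos h h'), sg_pos h, sg_pos h']; norm_num
lemma measurable_sg : Measurable sg := by
  unfold sg
  exact Measurable.ite measurableSet_Ioi measurable_const measurable_const

lemma bs_decide (x : ℝ) : bs (decide (0 < x)) = sg x := by
  unfold bs sg; by_cases h : 0 < x <;> simp [h]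

lemma sg_L1 {a b X Z g r : ℝ} (ha : 0 ≤ a) (hb : 0 ≤ b) (hab : 0 < a + b) (hX : X ≠ 0) (hZ : Z ≠ 0)
    (hr : 0 < r) (h : r * g = a * X + b * Z) :
    sg g * (sg X + sg Z) = 1 + sg X * sg Z := by
  rcases lt_or_gt_of_ne hX with h1 | h1 <;> rcases lt_or_gt_of_ne hZ with h2 | h2
  · have hg : g < 0 := by
      by_contra hc
      push Not at hc
      have h3 : 0 ≤ r * g := mul_nonneg hr.le hc
      have h4 : a * X ≤ 0 := mul_nonpos_of_nonneg_of_nonpos ha h1.le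
      have h5 : b * Z ≤ 0 := mul_nonpos_of_nonneg_of_nonpos hb h2.le
      have h6 : a * X = 0 := by linarith
      have h7 : b * Z = 0 := by linarith
      have h8 : a = 0 := (mul_eq_zero.1 h6).resolve_right hX
      have h9 : b = 0 := (mul_eq_zero.1 h7).resolve_right hZ
      rw [h8, h9] at hab; linarith
    rw [sg_nonpos hg.le, sg_nonpos h1.le, sg_nonpos h2.le]; norm_num
  · rw [sg_nonpos h1.le, sg_pos h2]; norm_num
  · rw [sg_pos h1, sg_nonpos h2.le]; norm_num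
  · have hg : 0 < g := by
      by_contra hc
      push Not at hc
      have h3 : r * g ≤ 0 := mul_nonpos_of_nonneg_of_nonpos hr.le hc
      have h4 : 0 ≤ a * X := mul_nonneg ha h1.le
      have h5 : 0 ≤ b * Z := mul_nonneg hb h2.le
      have h6 : a * X = 0 := by linarith
      have h7 : b * Z = 0 := by linarith
      have h8 : a = 0 := (mul_eq_zero.1 h6).resolve_right hX
      have h9 : b = 0 := (mul_eq_zero.1 h7).resolve_right hZ
      rw [h8, h9] at hab; linarith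
    rw [sg_pos hg, sg_pos h1, sg_pos h2]; norm_num

lemma sg_L2 (a b : ℝ) (hab : a ≠ 0 ∨ b ≠ 0) : ∃ t u : ℝ, t * t = 1 ∧ u * u = 1 ∧
    ∀ X Z g r : ℝ, X ≠ 0 → Z ≠ 0 → 0 < r → r * g = a * X + b * Z →
      sg g * (t * sg X + u * sg Z) = 1 + t * u * (sg X * sg Z) := by
  have key : ∀ a : ℝ, ∃ t : ℝ, t * t = 1 ∧ a = t * |a| ∧ ∀ X : ℝ, X ≠ 0 → t * X ≠ 0 ∧
      sg (t * X) = t * sg X := by
    intro a
    rcases le_total 0 a with h | h
    · refine ⟨1, by norm_num, by rw [abs_of_nonneg h]; ring, fun X hX => ⟨by simpa using hX, by simp⟩⟩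
    · refine ⟨-1, by norm_num, by rw [abs_of_nonpos h]; ring, fun X hX => ⟨by simpa using hX, ?_⟩⟩
      rw [neg_one_mul, sg_neg hX]; ring
  obtain ⟨t, ht, hta, htX⟩ := key a
  obtain ⟨u, hu, hub, huX⟩ := key b
  refine ⟨t, u, ht, hu, fun X Z g r hX hZ hr h => ?_⟩
  have h1 := sg_L1 (abs_nonneg a) (abs_nonneg b) (by
    rcases hab with h | h
    · have := abs_pos.2 h; have := abs_nonneg b; linarith
    · have := abs_pos.2 h; have := abs_nonneg a; linarith) (htX X hX).1 (huX Z hZ).1 hr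
    (g := g) (by
      rw [h]
      conv_lhs => rw [hta, hub]
      ring)
  rw [(htX X hX).2, (huX Z hZ).2] at h1
  rw [h1]; ring

/-- The area form of the plane of `e, f`. -/
noncomputable def B0 {d : ℕ} (e f x y : E d) : ℝ := ⟪e, x⟫_ℝ * ⟪f, y⟫_ℝ - ⟪f, x⟫_ℝ * ⟪e, y⟫_ℝ

lemma measurable_B0 {d : ℕ} (e f : E d) : Measurable (fun p : E d × E d => B0 e f p.1 p.2) := by
  unfold B0
  have h : Continuous (fun p : E d × E d =>
    ⟪e, p.1⟫_ℝ * ⟪f, p.2⟫_ℝ - ⟪f, p.1⟫_ℝ * ⟪e, p.2⟫_ℝ) := by fun_prop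
  exact h.measurable

lemma exists_rot {d : ℕ} (e f : E d) (he : ⟪e, e⟫_ℝ = 1) (hf : ⟪f, f⟫_ℝ = 1) (hef : ⟪e, f⟫_ℝ = 0) :
    ∃ J : E d ≃ₗᵢ[ℝ] E d, ∀ x, ⟪e, J x⟫_ℝ = - ⟪f, x⟫_ℝ ∧ ⟪f, J x⟫_ℝ = ⟪e, x⟫_ℝ := by
  have hfe : ⟪f, e⟫_ℝ = 0 := by rw [real_inner_comm]; exact hef
  let L : E d →ₗ[ℝ] E d :=
    { toFun := fun x => x + (-⟪e, x⟫_ℝ - ⟪f, x⟫_ℝ) • e + (⟪e, x⟫_ℝ - ⟪f, x⟫_ℝ) • f
      map_add' := by
        intro x y
        simp only [inner_add_right]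
        module
      map_smul' := by
        intro c x
        simp only [inner_smul_right, RingHom.id_apply]
        module }
  have hL : ∀ x, L x = x + (-⟪e, x⟫_ℝ - ⟪f, x⟫_ℝ) • e + (⟪e, x⟫_ℝ - ⟪f, x⟫_ℝ) • f := fun x => rfl
  have h1 : ∀ x, ⟪e, L x⟫_ℝ = - ⟪f, x⟫_ℝ := by
    intro x
    rw [hL, inner_add_right, inner_add_right, inner_smul_right, inner_smul_right, he, hef]
    ring
  have h2 : ∀ x, ⟪f, L x⟫_ℝ = ⟪e, x⟫_ℝ := by
    intro x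
    rw [hL, inner_add_right, inner_add_right, inner_smul_right, inner_smul_right, hfe, hf]
    ring
  have h3 : ∀ x, ‖L x‖ = ‖x‖ := by
    intro x
    have h4 : ⟪L x, L x⟫_ℝ = ⟪x, x⟫_ℝ := by
      have h5 : ⟪L x, L x⟫_ℝ = ⟪L x, x⟫_ℝ + (-⟪e, x⟫_ℝ - ⟪f, x⟫_ℝ) * ⟪L x, e⟫_ℝ
          + (⟪e, x⟫_ℝ - ⟪f, x⟫_ℝ) * ⟪L x, f⟫_ℝ := by
        conv_lhs => rw [hL x]
        rw [← hL x]
        rw [hL x, inner_add_right, inner_add_right, inner_smul_right, inner_smul_right]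
      rw [h5, real_inner_comm e (L x), real_inner_comm f (L x), h1, h2]
      rw [hL, inner_add_left, inner_add_left, inner_smul_left, inner_smul_left]
      simp only [conj_trivial]
      ring
    have h6 : ‖L x‖ ^ 2 = ‖x‖ ^ 2 := by
      rw [← real_inner_self_eq_norm_sq, ← real_inner_self_eq_norm_sq, h4]
    exact (sq_eq_sq₀ (norm_nonneg _) (norm_nonneg _)).1 h6
  let LI : E d →ₗᵢ[ℝ] E d := ⟨L, h3⟩
  refine ⟨LI.toLinearIsometryEquiv rfl, fun x => ⟨h1 x, h2 x⟩⟩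

lemma kappa_plane {n : ℕ} (e f : E (n + 1)) (J : E (n + 1) ≃ₗᵢ[ℝ] E (n + 1))
    (hJ : ∀ x, ⟪e, J x⟫_ℝ = - ⟪f, x⟫_ℝ ∧ ⟪f, J x⟫_ℝ = ⟪e, x⟫_ℝ) (x y : E (n + 1))
    (hx : ⟪e, x⟫_ℝ ≠ 0 ∨ ⟪f, x⟫_ℝ ≠ 0) (hy : ⟪e, y⟫_ℝ ≠ 0 ∨ ⟪f, y⟫_ℝ ≠ 0) :
    1 / 2 ≤ (∫ z, sg (B0 e f z y) * sg (B0 e f x z) ∂sphereLaw (n + 1)) ^ 2 +
      (∫ z, sg (B0 e f z y) * sg (B0 e f (J x) z) ∂sphereLaw (n + 1)) ^ 2 := by
  have hpos : ∀ u : E (n + 1), (⟪e, u⟫_ℝ ≠ 0 ∨ ⟪f, u⟫_ℝ ≠ 0) →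
      0 < ⟪e, u⟫_ℝ ^ 2 + ⟪f, u⟫_ℝ ^ 2 := by
    intro u hu
    rcases hu with h | h <;> positivity
  -- the three linear functionals
  let lx : E (n + 1) → (E (n + 1) →ₗ[ℝ] ℝ) := fun u =>
    ⟪e, u⟫_ℝ • (innerₛₗ ℝ f) - ⟪f, u⟫_ℝ • (innerₛₗ ℝ e)
  have hlx : ∀ u z, lx u z = B0 e f u z := by intro u z; simp [lx, B0]
  have hswap : ∀ u z, B0 e f u z = - B0 e f z u := by intro u z; simp only [B0]; ring
  have hae : ∀ u : E (n + 1), (⟪e, u⟫_ℝ ≠ 0 ∨ ⟪f, u⟫_ℝ ≠ 0) →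
      ∀ᵐ z ∂sphereLaw (n + 1), B0 e f u z ≠ 0 := by
    intro u hu
    have := sphereLaw_ker' (n + 1) (lx u) (J u) (by
      rw [hlx, B0, (hJ u).1, (hJ u).2]
      have := hpos u hu
      nlinarith)
    filter_upwards [this] with z hz
    rwa [hlx] at hz
  have hJx : ⟪e, J x⟫_ℝ ≠ 0 ∨ ⟪f, J x⟫_ℝ ≠ 0 := by
    rw [(hJ x).1, (hJ x).2]
    rcases hx with h | h
    · right; exact h
    · left; simpa using h
  have hX := hae x hx
  have hZ := hae (J x) hJx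
  have hg := hae y hy
  obtain ⟨t, u, ht, hu, htu⟩ := sg_L2 (-(⟪e, x⟫_ℝ * ⟪e, y⟫_ℝ + ⟪f, x⟫_ℝ * ⟪f, y⟫_ℝ))
    (⟪f, x⟫_ℝ * ⟪e, y⟫_ℝ - ⟪e, x⟫_ℝ * ⟪f, y⟫_ℝ) (by
      by_contra hc
      push Not at hc
      obtain ⟨h1, h2⟩ := hc
      have h3 : (⟪e, x⟫_ℝ ^ 2 + ⟪f, x⟫_ℝ ^ 2) * (⟪e, y⟫_ℝ ^ 2 + ⟪f, y⟫_ℝ ^ 2) = 0 := by
        have : (⟪e, x⟫_ℝ ^ 2 + ⟪f, x⟫_ℝ ^ 2) * (⟪e, y⟫_ℝ ^ 2 + ⟪f, y⟫_ℝ ^ 2)
          = (-(⟪e, x⟫_ℝ * ⟪e, y⟫_ℝ + ⟪f, x⟫_ℝ * ⟪f, y⟫_ℝ)) ^ 2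
            + (⟪f, x⟫_ℝ * ⟪e, y⟫_ℝ - ⟪e, x⟫_ℝ * ⟪f, y⟫_ℝ) ^ 2 := by ring
        rw [this, h1, h2]; ring
      exact (mul_pos (hpos x hx) (hpos y hy)).ne' h3)
  -- integrability of the sign functions
  have hmeas : ∀ (u : E (n + 1)), Measurable (fun z => sg (B0 e f u z)) := fun u =>
    measurable_sg.comp ((measurable_B0 e f).comp (measurable_const.prodMk measurable_id))
  have hmeas' : ∀ (u : E (n + 1)), Measurable (fun z => sg (B0 e f z u)) := fun u =>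
    measurable_sg.comp ((measurable_B0 e f).comp (measurable_id.prodMk measurable_const))
  have hint : ∀ (F G : E (n + 1) → ℝ), Measurable F → Measurable G → (∀ z, |F z| = 1) →
      (∀ z, |G z| = 1) → Integrable (fun z => F z * G z) (sphereLaw (n + 1)) := by
    intro F G hF hG h1 h2
    refine Integrable.of_bound (hF.mul hG).aestronglyMeasurable 1
      (Filter.Eventually.of_forall fun z => ?_)
    rw [Real.norm_eq_abs, abs_mul, h1, h2]; norm_num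
  -- correlation of X and Z vanishes
  have hXZ : ∫ z, sg (B0 e f x z) * sg (B0 e f (J x) z) ∂sphereLaw (n + 1) = 0 := by
    have h1 : ∫ z, sg (B0 e f x z) * sg (B0 e f (J x) z) ∂sphereLaw (n + 1)
        = ∫ z, sg (B0 e f x (J z)) * sg (B0 e f (J x) (J z)) ∂sphereLaw (n + 1) := by
      have := (sphereLaw_rot (n + 1) J).integral_comp J.toHomeomorph.measurableEmbedding
        (fun z => sg (B0 e f x z) * sg (B0 e f (J x) z))
      exact this.symm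
    have h2 : ∫ z, sg (B0 e f x (J z)) * sg (B0 e f (J x) (J z)) ∂sphereLaw (n + 1)
        = ∫ z, - (sg (B0 e f x z) * sg (B0 e f (J x) z)) ∂sphereLaw (n + 1) := by
      refine integral_congr_ae ?_
      filter_upwards [hX, hZ] with z hz1 hz2
      have h3 : B0 e f x (J z) = - B0 e f (J x) z := by
        simp only [B0, (hJ x).1, (hJ x).2, (hJ z).1, (hJ z).2]; ring
      have h4 : B0 e f (J x) (J z) = B0 e f x z := by
        simp only [B0, (hJ x).1, (hJ x).2, (hJ z).1, (hJ z).2]; ring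
      rw [h3, h4, sg_neg hz2]; ring
    rw [h1] 
    have h5 := h2
    rw [integral_neg, ← h1] at h5
    rw [← h1]
    linarith
  have hsum : t * (∫ z, sg (B0 e f z y) * sg (B0 e f x z) ∂sphereLaw (n + 1)) +
      u * (∫ z, sg (B0 e f z y) * sg (B0 e f (J x) z) ∂sphereLaw (n + 1)) = 1 := by
    have h1 : ∫ z, (t * (sg (B0 e f z y) * sg (B0 e f x z))
        + u * (sg (B0 e f z y) * sg (B0 e f (J x) z))) ∂sphereLaw (n + 1)
        = ∫ z, (1 + t * u * (sg (B0 e f x z) * sg (B0 e f (J x) z))) ∂sphereLaw (n + 1) := by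
      refine integral_congr_ae ?_
      filter_upwards [hX, hZ, hg] with z hz1 hz2 hz3
      have h3 : (⟪e, x⟫_ℝ ^ 2 + ⟪f, x⟫_ℝ ^ 2) * B0 e f z y
          = -(⟪e, x⟫_ℝ * ⟪e, y⟫_ℝ + ⟪f, x⟫_ℝ * ⟪f, y⟫_ℝ) * B0 e f x z
            + (⟪f, x⟫_ℝ * ⟪e, y⟫_ℝ - ⟪e, x⟫_ℝ * ⟪f, y⟫_ℝ) * B0 e f (J x) z := by
        simp only [B0, (hJ x).1, (hJ x).2]; ring
      have := htu _ _ _ _ hz1 hz2 (hpos x hx) h3
      rw [← this]; ring
    rw [integral_add, integral_const_mul, integral_const_mul, integral_add, integral_const_mul,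
      hXZ, integral_const] at h1
    · rw [h1]; simp
    · exact integrable_const _
    · exact (hint _ _ (hmeas x) (hmeas (J x)) (fun z => sg_abs _) (fun z => sg_abs _)).const_mul _
    · exact (hint _ _ (hmeas' y) (hmeas x) (fun z => sg_abs _) (fun z => sg_abs _)).const_mul _
    · exact (hint _ _ (hmeas' y) (hmeas (J x)) (fun z => sg_abs _) (fun z => sg_abs _)).const_mul _
  set A := ∫ z, sg (B0 e f z y) * sg (B0 e f x z) ∂sphereLaw (n + 1)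
  set C := ∫ z, sg (B0 e f z y) * sg (B0 e f (J x) z) ∂sphereLaw (n + 1)
  have h5 : (t * A + u * C) ^ 2 + (t * A - u * C) ^ 2 = 2 * (t * t) * A ^ 2 + 2 * (u * u) * C ^ 2 := by
    ring
  rw [hsum, ht, hu] at h5
  nlinarith [sq_nonneg (t * A - u * C)]

end Pool.Agent.Q287.SA
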