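import Mathlib
import Pool.Agent.Q287.SA.Kappa

open MeasureTheory Set Filter Topology
open scoped ENNReal NNReal InnerProductSpace Pointwise

namespace Pool.Agent.Q287.SA

lemma measurable_kpl {n : ℕ} (e f y : E (n + 1)) :
    Measurable (fun x => ∫ z, sg (B0 e f z y) * sg (B0 e f x z) ∂sphereLaw (n + 1)) := by
  have h : Measurable (fun p : E (n + 1) × E (n + 1) =>
      sg (B0 e f p.2 y) * sg (B0 e f p.1 p.2)) := by
    refine Measurable.mul ?_ ?_
    · exact measurable_sg.comp ((measurable_B0 e f).comp (measurable_snd.prodMk measurable_const))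
    · exact measurable_sg.comp (measurable_B0 e f)
  exact (h.stronglyMeasurable.integral_prod_right' (ν := sphereLaw (n + 1))).measurable

lemma kpl_abs {n : ℕ} (e f y x : E (n + 1)) :
    |∫ z, sg (B0 e f z y) * sg (B0 e f x z) ∂sphereLaw (n + 1)| ≤ 1 := by
  rw [← Real.norm_eq_abs]
  refine (norm_integral_le_of_norm_le_const (C := 1)
    (Filter.Eventually.of_forall fun z => ?_)).trans ?_
  · rw [Real.norm_eq_abs, abs_mul, sg_abs, sg_abs]; norm_num
  · simp

lemma kappa_int {n : ℕ} (e f y : E (n + 1)) (he : ⟪e, e⟫_ℝ = 1) (hf : ⟪f, f⟫_ℝ = 1)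
    (hef : ⟪e, f⟫_ℝ = 0) (hy : ⟪e, y⟫_ℝ ≠ 0 ∨ ⟪f, y⟫_ℝ ≠ 0) :
    1 / 4 ≤ ∫ x, (∫ z, sg (B0 e f z y) * sg (B0 e f x z) ∂sphereLaw (n + 1)) ^ 2
      ∂sphereLaw (n + 1) := by
  obtain ⟨J, hJ⟩ := exists_rot e f he hf hef
  set k : E (n + 1) → ℝ := fun x => ∫ z, sg (B0 e f z y) * sg (B0 e f x z) ∂sphereLaw (n + 1)
    with hk
  have hkm : Measurable k := measurable_kpl e f y
  have hint : ∀ g : E (n + 1) → E (n + 1), Measurable g →
      Integrable (fun x => k (g x) ^ 2) (sphereLaw (n + 1)) := by
    intro g hg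
    refine Integrable.of_bound ((hkm.comp hg).pow_const 2).aestronglyMeasurable 1
      (Filter.Eventually.of_forall fun z => ?_)
    rw [Real.norm_eq_abs, abs_pow]
    exact pow_le_one₀ (abs_nonneg _) (kpl_abs e f y _)
  have h1 : ∫ x, k (J x) ^ 2 ∂sphereLaw (n + 1) = ∫ x, k x ^ 2 ∂sphereLaw (n + 1) :=
    (sphereLaw_rot (n + 1) J).integral_comp J.toHomeomorph.measurableEmbedding
        (fun z => k z ^ 2)
  have h2 : ∀ᵐ x ∂sphereLaw (n + 1), ⟪e, x⟫_ℝ ≠ 0 := by
    have := sphereLaw_ker' (n + 1) (innerₛₗ ℝ e) e (by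
      simp only [innerₛₗ_apply_apply]; rw [he]; exact one_ne_zero)
    simpa using this
  have h3 : ∫ _x, (1 / 2 : ℝ) ∂sphereLaw (n + 1)
      ≤ ∫ x, (k x ^ 2 + k (J x) ^ 2) ∂sphereLaw (n + 1) := by
    refine integral_mono_ae (integrable_const _)
      ((hint id measurable_id).add (hint J J.continuous.measurable)) ?_
    filter_upwards [h2] with x hx
    exact kappa_plane e f J hJ x y (Or.inl hx) hy
  have h4 : ∫ x, (k x ^ 2 + k (J x) ^ 2) ∂sphereLaw (n + 1)
      = ∫ x, k x ^ 2 ∂sphereLaw (n + 1) + ∫ x, k (J x) ^ 2 ∂sphereLaw (n + 1) :=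
    integral_add (hint id measurable_id) (hint J J.continuous.measurable)
  rw [h4, h1] at h3
  simp only [integral_const, probReal_univ, one_smul] at h3
  change 1 / 4 ≤ ∫ x, k x ^ 2 ∂sphereLaw (n + 1)
  linarith

lemma De_two {d : ℕ} (U : Fin d → E d) (c c' : Fin d → ℝ) {a b : Fin d} (hab : a ≠ b) :
    De (Function.update (Function.update U a (∑ j, c j • U j)) b (∑ j, c' j • U j))
      = (c a * c' b - c b * c' a) * De U := by
  set x := ∑ j, c j • U j with hx
  have hxa : De (Function.update U a x) = c a * De U := De_sum U c a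
  have hxb : De (Function.update U b x) = c b * De U := De_sum U c b
  have h1 : De (Function.update (Function.update U a x) b (∑ j, c' j • U j))
      = ∑ j, c' j * De (Function.update (Function.update U a x) b (U j)) := by
    rw [AlternatingMap.map_update_sum]
    refine Finset.sum_congr rfl fun j _ => ?_
    rw [AlternatingMap.map_update_smul, smul_eq_mul]
  have h2 : De (Function.update (Function.update U a x) b (U b)) = De (Function.update U a x) := by
    congr 1
    rw [Function.update_comm hab, Function.update_eq_self]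
  have h3 : De (Function.update (Function.update U a x) b (U a)) = - De (Function.update U b x) := by
    rw [← AlternatingMap.map_swap De (Function.update U b x) hab]
    congr 1
    funext i
    simp only [Function.comp]
    by_cases hia : i = a
    · subst hia
      rw [Equiv.swap_apply_left, Function.update_of_ne hab, Function.update_self,
        Function.update_self]
    · by_cases hib : i = b
      · subst hib
        rw [Equiv.swap_apply_right, Function.update_self, Function.update_of_ne hab]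
      · rw [Equiv.swap_apply_of_ne_of_ne hia hib, Function.update_of_ne hib,
          Function.update_of_ne hia, Function.update_of_ne hib]
  have h4 : ∀ j, j ≠ a → j ≠ b → De (Function.update (Function.update U a x) b (U j)) = 0 := by
    intro j hja hjb
    refine De.map_eq_zero_of_eq _ (i := j) (j := b) ?_ hjb
    rw [Function.update_of_ne hjb, Function.update_of_ne hja, Function.update_self]
  rw [h1, ← Finset.sum_subset (Finset.subset_univ {a, b})]
  · rw [Finset.sum_pair hab, h2, h3, hxa, hxb]; ring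
  · intro j _ hj
    simp only [Finset.mem_insert, Finset.mem_singleton, not_or] at hj
    rw [h4 j hj.1 hj.2, mul_zero]

lemma exists_frame {d : ℕ} {U : Fin d → E d} (hU : De U ≠ 0) {a b : Fin d} (hab : a ≠ b) :
    ∃ e f : E d, ∃ c : ℝ, ⟪e, e⟫_ℝ = 1 ∧ ⟪f, f⟫_ℝ = 1 ∧ ⟪e, f⟫_ℝ = 0 ∧ c ≠ 0 ∧
      ∀ x y, De (Function.update (Function.update U a x) b y) = c * B0 e f x y := by
  let φ : E d →L[ℝ] ℝ := (De.toMultilinearMap.toLinearMap U a).toContinuousLinearMap
  let ψ : E d →L[ℝ] ℝ := (De.toMultilinearMap.toLinearMap U b).toContinuousLinearMap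
  have hφ : ∀ x, φ x = De (Function.update U a x) := fun x => rfl
  have hψ : ∀ x, ψ x = De (Function.update U b x) := fun x => rfl
  let p : E d := (InnerProductSpace.toDual ℝ (E d)).symm φ
  let q : E d := (InnerProductSpace.toDual ℝ (E d)).symm ψ
  have hp : ∀ x, ⟪p, x⟫_ℝ = φ x := fun x => InnerProductSpace.toDual_symm_apply
  have hq : ∀ x, ⟪q, x⟫_ℝ = ψ x := fun x => InnerProductSpace.toDual_symm_apply
  have hφa : φ (U a) = De U := by rw [hφ, Function.update_eq_self]
  have hψb : ψ (U b) = De U := by rw [hψ, Function.update_eq_self]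
  have hφb : φ (U b) = 0 := by
    rw [hφ]
    refine De.map_eq_zero_of_eq _ (i := b) (j := a) ?_ hab.symm
    rw [Function.update_of_ne hab.symm, Function.update_self]
  have hdec : ∀ x y, De (Function.update (Function.update U a x) b y) * De U
      = φ x * ψ y - φ y * ψ x := by
    intro x y
    obtain ⟨c, hc⟩ := exists_coord hU x
    obtain ⟨c', hc'⟩ := exists_coord hU y
    rw [hφ, hφ, hψ, hψ, hc, hc', De_two U c c' hab, De_sum, De_sum, De_sum, De_sum]
    ring
  have hp0 : p ≠ 0 := by
    intro h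
    have := hp (U a)
    rw [h, inner_zero_left, hφa] at this
    exact hU this.symm
  have hpn : ‖p‖ ≠ 0 := norm_ne_zero_iff.2 hp0
  set e : E d := ‖p‖⁻¹ • p with he
  have hee : ⟪e, e⟫_ℝ = 1 := by
    rw [he, inner_smul_left, inner_smul_right, real_inner_self_eq_norm_sq]
    simp only [conj_trivial]
    field_simp
  have hpe : ∀ x, φ x = ‖p‖ * ⟪e, x⟫_ℝ := by
    intro x
    rw [← hp, he, inner_smul_left]
    simp only [conj_trivial]
    field_simp
  set t : ℝ := ⟪e, q⟫_ℝ with ht
  set q' : E d := q - t • e with hq'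
  have hψe : ∀ x, ψ x = ⟪q', x⟫_ℝ + t * ⟪e, x⟫_ℝ := by
    intro x
    rw [← hq, hq', inner_sub_left, inner_smul_left]
    simp only [conj_trivial]
    ring
  have heb : ⟪e, U b⟫_ℝ = 0 := by
    have := hpe (U b)
    rw [hφb] at this
    exact (mul_eq_zero.1 this.symm).resolve_left hpn
  have hq0 : q' ≠ 0 := by
    intro h
    have := hψe (U b)
    rw [h, inner_zero_left, heb, hψb] at this
    apply hU; linarith
  have hqn : ‖q'‖ ≠ 0 := norm_ne_zero_iff.2 hq0
  set f : E d := ‖q'‖⁻¹ • q' with hf
  have hff : ⟪f, f⟫_ℝ = 1 := by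
    rw [hf, inner_smul_left, inner_smul_right, real_inner_self_eq_norm_sq]
    simp only [conj_trivial]
    field_simp
  have hef : ⟪e, f⟫_ℝ = 0 := by
    rw [hf, inner_smul_right, hq', inner_sub_right, inner_smul_right, hee, ← ht]
    ring
  have hqf : ∀ x, ⟪q', x⟫_ℝ = ‖q'‖ * ⟪f, x⟫_ℝ := by
    intro x
    rw [hf, inner_smul_left]
    simp only [conj_trivial]
    field_simp
  refine ⟨e, f, ‖p‖ * ‖q'‖ / De U, hee, hff, hef, ?_, ?_⟩
  · exact div_ne_zero (mul_ne_zero hpn hqn) hU
  · intro x y
    have h1 := hdec x y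
    rw [hpe, hpe, hψe, hψe, hqf, hqf] at h1
    have h2 : De (Function.update (Function.update U a x) b y)
        = (‖p‖ * ⟪e, x⟫_ℝ * (‖q'‖ * ⟪f, y⟫_ℝ + t * ⟪e, y⟫_ℝ) -
          ‖p‖ * ⟪e, y⟫_ℝ * (‖q'‖ * ⟪f, x⟫_ℝ + t * ⟪e, x⟫_ℝ)) / De U := by
      rw [← h1]; field_simp
    rw [h2]
    simp only [B0]
    field_simp
    ring

/-- The conditional correlation of the signs of coordinates `0` and `i`, given the vectors. -/
noncomputable def kap {n : ℕ} (U : Fin (n + 1) → E (n + 1)) (i : Fin (n + 1)) : ℝ :=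
  ∫ z, bs (pat U z 0) * bs (pat U z i) ∂sphereLaw (n + 1)

lemma measurable_pat {n : ℕ} (k : Fin (n + 1)) :
    Measurable (fun p : (Fin (n + 1) → E (n + 1)) × E (n + 1) => bs (pat p.1 p.2 k)) := by
  have h1 : (fun p : (Fin (n + 1) → E (n + 1)) × E (n + 1) => bs (pat p.1 p.2 k))
      = fun p => sg (De (Function.update p.1 k p.2) * De p.1) := by
    funext p; exact bs_decide _
  rw [h1]
  exact measurable_sg.comp ((measurable_DD k).mul (measurable_De.comp measurable_fst))

lemma measurable_kap {n : ℕ} (i : Fin (n + 1)) :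
    Measurable (fun U : Fin (n + 1) → E (n + 1) => kap U i) :=
  (((measurable_pat 0).mul (measurable_pat i)).stronglyMeasurable.integral_prod_right'
    (ν := sphereLaw (n + 1))).measurable

lemma kap_abs {n : ℕ} (U : Fin (n + 1) → E (n + 1)) (i : Fin (n + 1)) : |kap U i| ≤ 1 := by
  unfold kap
  rw [← Real.norm_eq_abs]
  refine (norm_integral_le_of_norm_le_const (C := 1)
    (Filter.Eventually.of_forall fun z => ?_)).trans ?_
  · rw [Real.norm_eq_abs, abs_mul, bs_abs, bs_abs]; norm_num
  · simp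

lemma kap_fiber {n : ℕ} {U : Fin (n + 1) → E (n + 1)} (hU : De U ≠ 0) {i : Fin (n + 1)}
    (hi : i ≠ 0) :
    1 / 4 ≤ ∫ x, kap (Function.update U 0 x) i ^ 2 ∂sphereLaw (n + 1) := by
  obtain ⟨e, f, c, he, hf, hef, hc, hB⟩ := exists_frame hU (Ne.symm hi)
  have hy : ⟪e, U i⟫_ℝ ≠ 0 ∨ ⟪f, U i⟫_ℝ ≠ 0 := by
    by_contra h
    push Not at h
    have h1 := hB (U 0) (U i)
    rw [Function.update_eq_self, Function.update_eq_self, B0, h.1, h.2] at h1
    apply hU; rw [h1]; ring
  refine (kappa_int e f (U i) he hf hef hy).trans_eq ?_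
  refine integral_congr_ae ?_
  have h0 : ∀ᵐ x ∂sphereLaw (n + 1), De (Function.update U 0 x) ≠ 0 := by
    filter_upwards [ae_DD hU] with x hx using hx 0
  filter_upwards [h0] with x hx
  congr 1
  unfold kap
  refine integral_congr_ae ?_
  filter_upwards [ae_DD hx] with z hz
  have h1 : bs (pat (Function.update U 0 x) z 0)
      = sg (De (Function.update (Function.update U 0 x) 0 z) * De (Function.update U 0 x)) :=
    bs_decide _
  have h2 : bs (pat (Function.update U 0 x) z i)
      = sg (De (Function.update (Function.update U 0 x) i z) * De (Function.update U 0 x)) :=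
    bs_decide _
  have h3 := hz 0
  have h4 := hz i
  rw [h1, h2, sg_mul h3 hx, sg_mul h4 hx]
  have h5 : De (Function.update (Function.update U 0 x) 0 z) = c * B0 e f z (U i) := by
    rw [← hB, Function.update_idem]
    congr 1
    rw [Function.update_comm (Ne.symm hi), Function.update_eq_self]
  have h6 : De (Function.update (Function.update U 0 x) i z) = c * B0 e f x z := hB x z
  rw [h5] at h3
  rw [h6] at h4
  have h7 := right_ne_zero_of_mul h3
  have h8 := right_ne_zero_of_mul h4
  rw [h5, h6, sg_mul hc h7, sg_mul hc h8]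
  have h9 := sg_mul_self c
  have h10 := sg_mul_self (De (Function.update U 0 x))
  calc sg (B0 e f z (U i)) * sg (B0 e f x z)
      = (sg c * sg c) * (sg (De (Function.update U 0 x)) * sg (De (Function.update U 0 x)))
        * (sg (B0 e f z (U i)) * sg (B0 e f x z)) := by rw [h9, h10]; ring
    _ = _ := by ring

lemma kap_sq {n : ℕ} {i : Fin (n + 1)} (hi : i ≠ 0) :
    1 / 4 ≤ ∫ U, kap U i ^ 2 ∂iidSphere (n + 1) := by
  have hm : Measurable (fun U : Fin (n + 1) → E (n + 1) => kap U i ^ 2) :=
    (measurable_kap i).pow_const 2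
  have h1 : ∫ U, kap U i ^ 2 ∂iidSphere (n + 1)
      = ∫ p : (Fin (n + 1) → E (n + 1)) × E (n + 1), kap (Function.update p.1 0 p.2) i ^ 2
        ∂((iidSphere (n + 1)).prod (sphereLaw (n + 1))) := by
    conv_lhs => rw [← (resample n 0).map_eq]
    rw [integral_map (resample n 0).measurable.aemeasurable hm.aestronglyMeasurable]
  have hint : Integrable (fun p : (Fin (n + 1) → E (n + 1)) × E (n + 1) =>
      kap (Function.update p.1 0 p.2) i ^ 2) ((iidSphere (n + 1)).prod (sphereLaw (n + 1))) := by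
    refine Integrable.of_bound (hm.comp (resample n 0).measurable).aestronglyMeasurable 1
      (Filter.Eventually.of_forall fun z => ?_)
    rw [Real.norm_eq_abs, abs_pow]
    exact pow_le_one₀ (abs_nonneg _) (kap_abs _ _)
  rw [h1, integral_prod _ hint]
  have h2 : ∫ _U : Fin (n + 1) → E (n + 1), (1 / 4 : ℝ) ∂iidSphere (n + 1) = 1 / 4 := by simp
  rw [← h2]
  refine integral_mono_ae (integrable_const _) hint.integral_prod_left ?_
  filter_upwards [ae_De n] with U hU
  exact kap_fiber hU hi

end Pool.Agent.Q287.SA
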