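import Mathlib
import Pool.Agent.Q287.SA.Kappa2

open MeasureTheory Set Filter Topology
open scoped ENNReal NNReal InnerProductSpace Pointwise

namespace Pool.Agent.Q287.SA

lemma bs_inj {a b : Bool} (h : bs a = bs b) : a = b := by
  cases a <;> cases b <;> simp [bs] at h ⊢ <;> norm_num at h

lemma measurableSet_pat {n : ℕ} (ε : Fin (n + 1) → Bool) :
    MeasurableSet {p : (Fin (n + 1) → E (n + 1)) × E (n + 1) | pat p.1 p.2 = ε} := by
  have h : {p : (Fin (n + 1) → E (n + 1)) × E (n + 1) | pat p.1 p.2 = ε}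
      = ⋂ k, {p | bs (pat p.1 p.2 k) = bs (ε k)} := by
    ext p
    simp only [Set.mem_ofPred_eq, Set.mem_iInter]
    constructor
    · rintro h k; rw [h]
    · intro h; funext k; exact bs_inj (h k)
  rw [h]
  exact MeasurableSet.iInter fun k => measurableSet_eq_fun (measurable_pat k) measurable_const

lemma measurableSet_pat' {n : ℕ} (U : Fin (n + 1) → E (n + 1)) (ε : Fin (n + 1) → Bool) :
    MeasurableSet {z : E (n + 1) | pat U z = ε} :=
  measurable_prodMk_left (measurableSet_pat ε)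

lemma angle_eq {n : ℕ} {U : Fin (n + 1) → E (n + 1)} (hU : De U ≠ 0) (ε : Fin (n + 1) → Bool) :
    solidAngle (posHull (fun i => bs (ε i) • U i))
      = (sphereLaw (n + 1)).real {z | pat U z = ε} := by
  unfold solidAngle
  refine measureReal_congr ?_
  filter_upwards [ae_DD hU] with z hz
  have := mem_posHull_iff hU ε z hz
  refine propext ?_
  change z ∈ posHull (fun i => bs (ε i) • U i) ↔ pat U z = ε
  rw [this]; exact eq_comm

lemma sum_angle {n : ℕ} {U : Fin (n + 1) → E (n + 1)} (hU : De U ≠ 0)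
    (F : (Fin (n + 1) → Bool) → ℝ) :
    ∑ ε, solidAngle (posHull (fun i => bs (ε i) • U i)) * F ε
      = ∫ z, F (pat U z) ∂sphereLaw (n + 1) := by
  have h1 : ∀ z, F (pat U z) = ∑ ε, Set.indicator {z | pat U z = ε} (fun _ => F ε) z := by
    intro z
    rw [Finset.sum_eq_single (pat U z)]
    · simp
    · intro ε _ hε
      rw [Set.indicator_of_notMem]
      intro h; exact hε h.symm
    · intro h; exact absurd (Finset.mem_univ _) h
  simp_rw [h1]
  rw [integral_finsetSum]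
  · refine Finset.sum_congr rfl fun ε _ => ?_
    rw [integral_indicator_const _ (measurableSet_pat' U ε), angle_eq hU, smul_eq_mul]
  · intro ε _
    exact (integrable_const _).indicator (measurableSet_pat' U ε)

lemma sum_bs_bs {m : ℕ} (i j : Fin m) :
    ∑ ε : Fin m → Bool, bs (ε i) * bs (ε j) = if i = j then (2 : ℝ) ^ m else 0 := by
  split_ifs with h
  · subst h
    simp only [bs_mul_self]
    simp
  · let g : (Fin m → Bool) → (Fin m → Bool) := fun ε => Function.update ε i (!(ε i))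
    have hg : Function.Involutive g := by
      intro ε
      simp only [g, Function.update_self, Bool.not_not, Function.update_idem,
        Function.update_eq_self]
    have h1 := Equiv.sum_comp (Function.Involutive.toPerm g hg) (fun ε : Fin m → Bool => bs (ε i) * bs (ε j))
    have h2 : ∀ ε, bs (((Function.Involutive.toPerm g hg) ε) i) * bs (((Function.Involutive.toPerm g hg) ε) j) = - (bs (ε i) * bs (ε j)) := by
      intro ε
      have h3 : ((Function.Involutive.toPerm g hg) ε) i = !(ε i) := by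
        simp [Function.Involutive.coe_toPerm, g]
      have h4 : ((Function.Involutive.toPerm g hg) ε) j = ε j := by
        simp only [Function.Involutive.coe_toPerm, g]
        rw [Function.update_of_ne (Ne.symm h)]
      rw [h3, h4, bs_not]; ring
    simp_rw [h2] at h1
    rw [Finset.sum_neg_distrib] at h1
    linarith

/-- The test statistic. -/
noncomputable def TT {n : ℕ} (κ : Fin n → ℝ) (ε : Fin (n + 1) → Bool) : ℝ :=
  (∑ i, κ i * (bs (ε 0) * bs (ε i.succ))) / n

lemma TT_abs {n : ℕ} (hn : 1 ≤ n) {κ : Fin n → ℝ} (hκ : ∀ i, |κ i| ≤ 1)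
    (ε : Fin (n + 1) → Bool) : |TT κ ε| ≤ 1 := by
  unfold TT
  have hn' : (0 : ℝ) < n := by exact_mod_cast hn
  rw [abs_div, abs_of_pos hn', div_le_one hn']
  refine (Finset.abs_sum_le_sum_abs _ _).trans ?_
  refine (Finset.sum_le_sum (g := fun _ => (1 : ℝ)) fun i _ => ?_).trans (by simp)
  rw [abs_mul, abs_mul, bs_abs, bs_abs]; simpa using hκ i

lemma sum_TT_sq {n : ℕ} (hn : 1 ≤ n) {κ : Fin n → ℝ} (hκ : ∀ i, |κ i| ≤ 1) :
    ∑ ε : Fin (n + 1) → Bool, TT κ ε ^ 2 ≤ 2 ^ (n + 1) / n := by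
  have hn' : (0 : ℝ) < n := by exact_mod_cast hn
  have h1 : ∀ ε : Fin (n + 1) → Bool, TT κ ε ^ 2
      = (∑ i, ∑ j, κ i * κ j * (bs (ε i.succ) * bs (ε j.succ))) / (n : ℝ) ^ 2 := by
    intro ε
    have h2 : ∑ i, κ i * (bs (ε 0) * bs (ε i.succ)) = bs (ε 0) * ∑ i, κ i * bs (ε i.succ) := by
      rw [Finset.mul_sum]; refine Finset.sum_congr rfl fun i _ => by ring
    unfold TT
    rw [div_pow, h2, mul_pow]
    congr 1
    rw [pow_two (bs (ε 0)), bs_mul_self, one_mul, pow_two, Finset.sum_mul_sum]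
    refine Finset.sum_congr rfl fun i _ => Finset.sum_congr rfl fun j _ => by ring
  simp_rw [h1]
  rw [← Finset.sum_div, Finset.sum_comm]
  have h3 : ∑ i : Fin n, ∑ ε : Fin (n + 1) → Bool, ∑ j, κ i * κ j * (bs (ε i.succ) * bs (ε j.succ))
      = ∑ i : Fin n, κ i ^ 2 * 2 ^ (n + 1) := by
    refine Finset.sum_congr rfl fun i _ => ?_
    rw [Finset.sum_comm, Finset.sum_eq_single i]
    · rw [← Finset.mul_sum, sum_bs_bs, if_pos rfl]; ring
    · intro j _ hj
      rw [← Finset.mul_sum, sum_bs_bs, if_neg (by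
        intro h; exact hj (Fin.succ_injective _ h).symm), mul_zero]
    · intro h; exact absurd (Finset.mem_univ _) h
  rw [h3, ← Finset.sum_mul]
  have h4 : ∑ i, κ i ^ 2 ≤ n := by
    refine (Finset.sum_le_sum (g := fun _ => (1 : ℝ)) fun i _ => ?_).trans (by simp)
    have := hκ i
    rw [← sq_abs]; exact pow_le_one₀ (abs_nonneg _) this
  rw [div_le_div_iff₀ (by positivity) hn']
  have : (∑ i, κ i ^ 2) * 2 ^ (n + 1) * n ≤ n * 2 ^ (n + 1) * n := by gcongr
  nlinarith

lemma sum_TT_abs {n : ℕ} (hn : 1 ≤ n) {κ : Fin n → ℝ} (hκ : ∀ i, |κ i| ≤ 1) :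
    ∑ ε : Fin (n + 1) → Bool, |TT κ ε| ≤ 2 ^ (n + 1) / Real.sqrt n := by
  have hn' : (0 : ℝ) < n := by exact_mod_cast hn
  have hs : 0 < Real.sqrt n := Real.sqrt_pos.2 hn'
  have hss : Real.sqrt n * Real.sqrt n = n := Real.mul_self_sqrt hn'.le
  have h1 : ∀ ε : Fin (n + 1) → Bool, |TT κ ε| ≤ 1 / (2 * Real.sqrt n) + Real.sqrt n / 2 * TT κ ε ^ 2 := by
    intro ε
    have h2 := sq_nonneg (1 / Real.sqrt n - |TT κ ε|)
    have h3 : (1 / Real.sqrt n - |TT κ ε|) ^ 2
        = (1 / Real.sqrt n) ^ 2 - 2 * (1 / Real.sqrt n) * |TT κ ε| + TT κ ε ^ 2 := by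
      rw [sub_sq, sq_abs]
    rw [h3] at h2
    have h4 : 0 ≤ Real.sqrt n / 2 * ((1 / Real.sqrt n) ^ 2 - 2 * (1 / Real.sqrt n) * |TT κ ε| + TT κ ε ^ 2) :=
      mul_nonneg (by positivity) h2
    have h5 : Real.sqrt n / 2 * ((1 / Real.sqrt n) ^ 2 - 2 * (1 / Real.sqrt n) * |TT κ ε| + TT κ ε ^ 2)
        = 1 / (2 * Real.sqrt n) - |TT κ ε| + Real.sqrt n / 2 * TT κ ε ^ 2 := by
      field_simp
    rw [h5] at h4
    linarith
  refine (Finset.sum_le_sum fun ε _ => h1 ε).trans ?_
  rw [Finset.sum_add_distrib, ← Finset.mul_sum]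
  have h6 := sum_TT_sq hn hκ
  have h7 : Real.sqrt n / 2 * ∑ ε : Fin (n + 1) → Bool, TT κ ε ^ 2
      ≤ Real.sqrt n / 2 * (2 ^ (n + 1) / n) := mul_le_mul_of_nonneg_left h6 (by positivity)
  have h8 : Real.sqrt n / 2 * (2 ^ (n + 1) / n) = 2 ^ (n + 1) / (2 * Real.sqrt n) := by
    rw [div_mul_div_comm, div_eq_div_iff (by positivity) (by positivity)]
    linear_combination ((2 : ℝ) ^ (n + 1) * 2) * hss
  have h9 : ∑ _ε : Fin (n + 1) → Bool, 1 / (2 * Real.sqrt n) = 2 ^ (n + 1) / (2 * Real.sqrt n) := by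
    rw [Finset.sum_const, Finset.card_univ]
    simp only [Fintype.card_pi, Fintype.card_bool, Finset.prod_const, Finset.card_univ,
      Fintype.card_fin, nsmul_eq_mul]
    push_cast
    ring
  rw [h9]
  rw [h8] at h7
  have h10 : (2 : ℝ) ^ (n + 1) / Real.sqrt n = 2 ^ (n + 1) / (2 * Real.sqrt n) + 2 ^ (n + 1) / (2 * Real.sqrt n) := by
    field_simp; ring
  rw [h10]
  linarith

lemma pointwise {n : ℕ} (hn : 1 ≤ n) {U : Fin (n + 1) → E (n + 1)} (hU : De U ≠ 0) {M : ℝ}
    (hM : 0 ≤ M) :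
    ∑ ε : Fin (n + 1) → Bool,
        min (solidAngle (posHull (fun i => bs (ε i) • U i))) (M / 2 ^ (n + 1))
      ≤ 1 + M / Real.sqrt n - (∑ i : Fin n, kap U i.succ ^ 2) / n := by
  set p : (Fin (n + 1) → Bool) → ℝ := fun ε => solidAngle (posHull (fun i => bs (ε i) • U i))
    with hp
  set κ : Fin n → ℝ := fun i => kap U i.succ with hκ
  have hκ1 : ∀ i, |κ i| ≤ 1 := fun i => kap_abs U _
  have hn' : (0 : ℝ) < n := by exact_mod_cast hn
  have hp0 : ∀ ε, 0 ≤ p ε := fun ε => measureReal_nonneg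
  have hsum1 : ∑ ε, p ε = 1 := by
    have := sum_angle hU (fun _ => (1 : ℝ))
    simpa using this
  have hsumT : ∑ ε, p ε * TT κ ε = (∑ i, κ i ^ 2) / n := by
    rw [sum_angle hU]
    unfold TT
    rw [integral_div]
    congr 1
    rw [integral_finsetSum]
    · refine Finset.sum_congr rfl fun i _ => ?_
      rw [integral_const_mul, pow_two]
      rfl
    · intro i _
      refine Integrable.const_mul ?_ _
      refine Integrable.of_bound ?_ 1 (Filter.Eventually.of_forall fun z => ?_)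
      · have h1 := (measurable_pat (n := n) 0).comp (measurable_prodMk_left (x := U))
        have h2 := (measurable_pat (n := n) i.succ).comp (measurable_prodMk_left (x := U))
        exact (h1.mul h2).aestronglyMeasurable
      · rw [Real.norm_eq_abs, abs_mul, bs_abs, bs_abs]; norm_num
  set m : (Fin (n + 1) → Bool) → ℝ := fun ε => min (p ε) (M / 2 ^ (n + 1)) with hm
  have hm0 : ∀ ε, 0 ≤ m ε := fun ε => le_min (hp0 ε) (by positivity)
  have hm1 : ∀ ε, m ε ≤ p ε := fun ε => min_le_left _ _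
  have hm2 : ∀ ε, m ε ≤ M / 2 ^ (n + 1) := fun ε => min_le_right _ _
  have h1 : ∀ ε, p ε * TT κ ε ≤ M / 2 ^ (n + 1) * |TT κ ε| + (p ε - m ε) := by
    intro ε
    have h2 : TT κ ε ≤ 1 := (le_abs_self _).trans (TT_abs hn hκ1 ε)
    have h3 : m ε * TT κ ε ≤ M / 2 ^ (n + 1) * |TT κ ε| :=
      (mul_le_mul_of_nonneg_left (le_abs_self _) (hm0 ε)).trans
        (mul_le_mul_of_nonneg_right (hm2 ε) (abs_nonneg _))
    have h4 : (p ε - m ε) * TT κ ε ≤ (p ε - m ε) * 1 :=
      mul_le_mul_of_nonneg_left h2 (by linarith [hm1 ε])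
    nlinarith
  have h5 := Finset.sum_le_sum fun ε (_ : ε ∈ Finset.univ) => h1 ε
  rw [Finset.sum_add_distrib, ← Finset.mul_sum, Finset.sum_sub_distrib, hsum1, hsumT] at h5
  have h6 : M / 2 ^ (n + 1) * ∑ ε, |TT κ ε| ≤ M / Real.sqrt n := by
    refine (mul_le_mul_of_nonneg_left (sum_TT_abs hn hκ1) (by positivity)).trans_eq ?_
    field_simp
  change ∑ ε, m ε ≤ 1 + M / Real.sqrt n - (∑ i, κ i ^ 2) / n
  linarith

end Pool.Agent.Q287.SA
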