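import Mathlib
import Pool.Agent.Q287.SA.Main

open MeasureTheory Set Filter Topology
open scoped ENNReal NNReal InnerProductSpace Pointwise

namespace Pool.Agent.Q287.SA

lemma angle_degenerate {n : ℕ} {U : Fin (n + 1) → E (n + 1)} (hU : De U = 0) :
    solidAngle (posHull U) = 0 := by
  have hspan : Submodule.span ℝ (Set.range U) ≠ ⊤ := by
    intro h
    have hli : LinearIndependent ℝ U :=
      linearIndependent_of_top_le_span_of_card_eq_finrank h.ge (by simp)
    have := ((EuclideanSpace.basisFun (Fin (n + 1)) ℝ).toBasis.is_basis_iff_det (v := U)).1 ⟨hli, h⟩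
    exact this.ne_zero hU
  have h1 := sphereLaw_submodule _ _ hspan
  unfold solidAngle
  rw [measureReal_def, measure_mono_null _ h1]
  · simp
  · rintro x ⟨c, _, rfl⟩
    exact Submodule.sum_mem _ fun i _ =>
      Submodule.smul_mem _ _ (Submodule.subset_span ⟨i, rfl⟩)

lemma measurable_angle (n : ℕ) :
    Measurable (fun U : Fin (n + 1) → E (n + 1) => solidAngle (posHull U)) := by
  have h : (fun U : Fin (n + 1) → E (n + 1) => solidAngle (posHull U))
      = fun U => if De U = 0 then 0 else
        (sphereLaw (n + 1)).real {z | pat U z = fun _ => true} := by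
    funext U
    split_ifs with hU
    · exact angle_degenerate hU
    · rw [← angle_eq hU]
      congr 2
      funext i; simp [bs]
  rw [h]
  refine Measurable.ite (measurable_De (measurableSet_singleton 0)) measurable_const ?_
  have := measurable_measure_prodMk_left (ν := sphereLaw (n + 1))
    (measurableSet_pat (n := n) (fun _ => true))
  exact this.ennreal_toReal

lemma measurable_scaled (n : ℕ) : Measurable (scaledAngle (n + 1)) :=
  (measurable_angle n).const_mul _

lemma scaled_nonneg (d : ℕ) (U : Fin d → E d) : 0 ≤ scaledAngle d U :=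
  mul_nonneg (by positivity) measureReal_nonneg

lemma flip_mp (n : ℕ) (ε : Fin (n + 1) → Bool) :
    MeasurePreserving (fun (U : Fin (n + 1) → E (n + 1)) i => bs (ε i) • U i)
      (iidSphere (n + 1)) (iidSphere (n + 1)) := by
  unfold iidSphere
  refine measurePreserving_pi _ _ (f := fun i (x : E (n + 1)) => bs (ε i) • x) fun i => ?_
  cases ε i
  · have h : (fun x : E (n + 1) => bs false • x) = (LinearIsometryEquiv.neg ℝ : E (n + 1) ≃ₗᵢ[ℝ] E (n + 1)) := by
      funext x; simp [bs]
    rw [h]
    exact sphereLaw_rot _ _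
  · have h : (fun x : E (n + 1) => bs true • x) = id := by
      funext x; simp [bs]
    rw [h]
    exact MeasurePreserving.id _

lemma main_bound {n : ℕ} (hn : 1 ≤ n) {M : ℝ} (hM : 0 ≤ M) :
    ∫ U, min (scaledAngle (n + 1) U) M ∂iidSphere (n + 1) ≤ 3 / 4 + M / Real.sqrt n := by
  have hn' : (0 : ℝ) < n := by exact_mod_cast hn
  have h2pos : (0 : ℝ) < 2 ^ (n + 1) := by positivity
  set p : (Fin (n + 1) → Bool) → (Fin (n + 1) → E (n + 1)) → ℝ :=
    fun ε U => solidAngle (posHull (fun i => bs (ε i) • U i)) with hp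
  have hpm : ∀ ε, Measurable (p ε) := fun ε => (measurable_angle n).comp (flip_mp n ε).measurable
  have hmeas : Measurable (fun U : Fin (n + 1) → E (n + 1) => min (scaledAngle (n + 1) U) M) :=
    (measurable_scaled n).min measurable_const
  have h1 : ∀ ε : Fin (n + 1) → Bool, ∫ U, min (scaledAngle (n + 1) U) M ∂iidSphere (n + 1)
      = 2 ^ (n + 1) * ∫ U, min (p ε U) (M / 2 ^ (n + 1)) ∂iidSphere (n + 1) := by
    intro ε
    conv_lhs => rw [← (flip_mp n ε).map_eq]
    rw [integral_map (flip_mp n ε).measurable.aemeasurable hmeas.aestronglyMeasurable,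
      ← integral_const_mul]
    refine integral_congr_ae (Filter.Eventually.of_forall fun U => ?_)
    change min (2 ^ (n + 1) * p ε U) M = 2 ^ (n + 1) * min (p ε U) (M / 2 ^ (n + 1))
    rw [mul_min_of_nonneg _ _ h2pos.le]
    congr 1
    field_simp
  have hint : ∀ ε, Integrable (fun U => min (p ε U) (M / 2 ^ (n + 1))) (iidSphere (n + 1)) := by
    intro ε
    refine Integrable.of_bound ((hpm ε).min measurable_const).aestronglyMeasurable (M / 2 ^ (n + 1))
      (Filter.Eventually.of_forall fun U => ?_)
    have h0 : 0 ≤ min (p ε U) (M / 2 ^ (n + 1)) := le_min measureReal_nonneg (by positivity)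
    rw [Real.norm_eq_abs, abs_of_nonneg h0]
    exact min_le_right _ _
  have hkint : ∀ i : Fin n, Integrable (fun U : Fin (n + 1) → E (n + 1) => kap U i.succ ^ 2)
      (iidSphere (n + 1)) := by
    intro i
    refine Integrable.of_bound ((measurable_kap i.succ).pow_const 2).aestronglyMeasurable 1
      (Filter.Eventually.of_forall fun z => ?_)
    rw [Real.norm_eq_abs, abs_pow]
    exact pow_le_one₀ (abs_nonneg _) (kap_abs _ _)
  have hksum : Integrable (fun U : Fin (n + 1) → E (n + 1) => (∑ i : Fin n, kap U i.succ ^ 2) / n)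
      (iidSphere (n + 1)) := (integrable_finsetSum _ fun i _ => hkint i).div_const _
  have h2 : ∫ U, min (scaledAngle (n + 1) U) M ∂iidSphere (n + 1)
      = ∫ U, ∑ ε : Fin (n + 1) → Bool, min (p ε U) (M / 2 ^ (n + 1)) ∂iidSphere (n + 1) := by
    rw [integral_finsetSum _ fun ε _ => hint ε]
    have h3 : ∑ ε : Fin (n + 1) → Bool, (2 ^ (n + 1) * ∫ U, min (p ε U) (M / 2 ^ (n + 1)) ∂iidSphere (n + 1))
        = 2 ^ (n + 1) * ∫ U, min (scaledAngle (n + 1) U) M ∂iidSphere (n + 1) := by
      rw [Finset.sum_congr rfl fun ε _ => (h1 ε).symm, Finset.sum_const, Finset.card_univ]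
      simp
    rw [← Finset.mul_sum] at h3
    exact (mul_left_cancel₀ h2pos.ne' h3).symm
  have h4 : ∫ U, ∑ ε : Fin (n + 1) → Bool, min (p ε U) (M / 2 ^ (n + 1)) ∂iidSphere (n + 1)
      ≤ ∫ U, (1 + M / Real.sqrt n - (∑ i : Fin n, kap U i.succ ^ 2) / n) ∂iidSphere (n + 1) := by
    refine integral_mono_ae (integrable_finsetSum _ fun ε _ => hint ε)
      ((integrable_const _).sub hksum) ?_
    filter_upwards [ae_De n] with U hU
    exact pointwise hn hU hM
  have h5 : ∫ U, (1 + M / Real.sqrt n - (∑ i : Fin n, kap U i.succ ^ 2) / n) ∂iidSphere (n + 1)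
      = 1 + M / Real.sqrt n - (∑ i : Fin n, ∫ U, kap U i.succ ^ 2 ∂iidSphere (n + 1)) / n := by
    rw [integral_sub (integrable_const _) hksum, integral_div,
      integral_finsetSum _ fun i _ => hkint i]
    simp
  have h6 : (1 / 4 : ℝ) * n ≤ ∑ i : Fin n, ∫ U, kap U i.succ ^ 2 ∂iidSphere (n + 1) := by
    have : ∑ _i : Fin n, (1 / 4 : ℝ) = (1 / 4 : ℝ) * n := by simp; ring
    rw [← this]
    exact Finset.sum_le_sum fun i _ => kap_sq (Fin.succ_ne_zero i)
  have h7 : (1 / 4 : ℝ) ≤ (∑ i : Fin n, ∫ U, kap U i.succ ^ 2 ∂iidSphere (n + 1)) / n := by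
    rw [le_div_iff₀ hn']; exact h6
  rw [h2]
  refine h4.trans ?_
  rw [h5]
  linarith

/-- Truncation `x ↦ (x ∨ 0) ∧ M` as a bounded continuous function. -/
noncomputable def trunc (M : ℝ) : BoundedContinuousFunction ℝ ℝ :=
  BoundedContinuousFunction.ofNormedAddCommGroup (fun x => min (max x 0) M) (by fun_prop) |M| (by
    intro x
    rw [Real.norm_eq_abs, abs_le]
    constructor
    · refine le_min ((neg_nonpos.2 (abs_nonneg _)).trans (le_max_right _ _)) (neg_abs_le M)
    · exact (min_le_right _ _).trans (le_abs_self M))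

lemma limit_mean {Ω : Type*} [MeasurableSpace Ω] (P : Measure Ω) [IsProbabilityMeasure P]
    (X : Ω → ℝ) (φ : ℕ → ℕ) (hφ : StrictMono φ)
    (h : TendstoInDistribution (fun k => scaledAngle (φ k + 1)) atTop X
      (fun k => iidSphere (φ k + 1)) P) :
    0 ≤ᵐ[P] X ∧ Integrable X P ∧ ∫ ω, X ω ∂P ≤ 3 / 4 := by
  have hX := h.aemeasurable_limit
  have hconv : ∀ f : BoundedContinuousFunction ℝ ℝ,
      Tendsto (fun k => ∫ U, f (scaledAngle (φ k + 1) U) ∂iidSphere (φ k + 1)) atTop
        (𝓝 (∫ ω, f (X ω) ∂P)) := by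
    intro f
    have h1 := (ProbabilityMeasure.tendsto_iff_forall_integral_tendsto.1 h.tendsto) f
    simp only [ProbabilityMeasure.coe_mk] at h1
    rw [integral_map hX f.continuous.aestronglyMeasurable] at h1
    refine h1.congr fun k => ?_
    rw [integral_map (h.forall_aemeasurable k) f.continuous.aestronglyMeasurable]
  have hnn : 0 ≤ᵐ[P] X := by
    let g : BoundedContinuousFunction ℝ ℝ :=
      BoundedContinuousFunction.ofNormedAddCommGroup (fun x => min (max (-x) 0) 1) (by fun_prop) 1
        (by
          intro x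
          rw [Real.norm_eq_abs, abs_of_nonneg (le_min (le_max_right _ _) zero_le_one)]
          exact min_le_right _ _)
    have hg : ∀ x, g x = min (max (-x) 0) 1 := fun x => rfl
    have h1 := hconv g
    have h2 : ∀ k, ∫ U, g (scaledAngle (φ k + 1) U) ∂iidSphere (φ k + 1) = 0 := by
      intro k
      have : ∀ U, g (scaledAngle (φ k + 1) U) = 0 := by
        intro U
        rw [hg, max_eq_right (by linarith [scaled_nonneg (φ k + 1) U])]
        simp
      simp [this]
    simp_rw [h2] at h1
    have h3 : ∫ ω, g (X ω) ∂P = 0 := (tendsto_nhds_unique h1 tendsto_const_nhds)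
    have h4 : 0 ≤ᵐ[P] fun ω => g (X ω) := Filter.Eventually.of_forall fun ω => by
      change 0 ≤ g (X ω)
      rw [hg]; exact le_min (le_max_right _ _) zero_le_one
    have h5 : Integrable (fun ω => g (X ω)) P := by
      refine Integrable.of_bound (g.continuous.measurable.comp_aemeasurable hX).aestronglyMeasurable 1
        (Filter.Eventually.of_forall fun ω => ?_)
      rw [hg, Real.norm_eq_abs, abs_of_nonneg (le_min (le_max_right _ _) zero_le_one)]
      exact min_le_right _ _
    have h6 := (integral_eq_zero_iff_of_nonneg_ae h4 h5).1 h3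
    filter_upwards [h6] with ω hω
    by_contra hc
    have hc' : X ω < 0 := not_le.1 hc
    have : g (X ω) = 0 := hω
    rw [hg] at this
    have h7 : 0 < min (max (-X ω) 0) 1 := lt_min (lt_max_of_lt_left (by linarith)) one_pos
    linarith
  have htr : ∀ M : ℕ, ∫ ω, min (max (X ω) 0) (M : ℝ) ∂P ≤ 3 / 4 := by
    intro M
    have h1 := hconv (trunc M)
    have h2 : ∀ k, 1 ≤ k → ∫ U, (trunc M) (scaledAngle (φ k + 1) U) ∂iidSphere (φ k + 1)
        ≤ 3 / 4 + M / Real.sqrt k := by
      intro k hk
      have hk' : k ≤ φ k := hφ.le_apply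
      have h3 : ∀ U, (trunc M) (scaledAngle (φ k + 1) U) = min (scaledAngle (φ k + 1) U) M := by
        intro U
        change min (max (scaledAngle (φ k + 1) U) 0) (M : ℝ) = _
        rw [max_eq_left (scaled_nonneg _ _)]
      simp_rw [h3]
      refine (main_bound (hk.trans hk') (Nat.cast_nonneg M)).trans ?_
      have : (0 : ℝ) < k := by exact_mod_cast hk
      gcongr
    have h4 : Tendsto (fun k : ℕ => 3 / 4 + (M : ℝ) / Real.sqrt k) atTop (𝓝 (3 / 4 + 0)) := by
      refine tendsto_const_nhds.add ?_
      refine Tendsto.div_atTop tendsto_const_nhds ?_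
      exact Real.tendsto_sqrt_atTop.comp tendsto_natCast_atTop_atTop
    have h5 := le_of_tendsto_of_tendsto h1 h4 (by
      filter_upwards [eventually_ge_atTop 1] with k hk using h2 k hk)
    rw [add_zero] at h5
    exact h5
  have hlin : ∫⁻ ω, ENNReal.ofReal (X ω) ∂P ≤ ENNReal.ofReal (3 / 4) := by
    have h1 : Tendsto (fun M : ℕ => ∫⁻ ω, ENNReal.ofReal (min (max (X ω) 0) (M : ℝ)) ∂P) atTop
        (𝓝 (∫⁻ ω, ENNReal.ofReal (X ω) ∂P)) := by
      refine lintegral_tendsto_of_tendsto_of_monotone (fun M => ?_) ?_ ?_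
      · exact ((hX.max aemeasurable_const).min aemeasurable_const).ennreal_ofReal
      · refine Filter.Eventually.of_forall fun ω => ?_
        intro a b hab
        refine ENNReal.ofReal_le_ofReal ?_
        exact min_le_min_left _ (by exact_mod_cast hab)
      · filter_upwards [hnn] with ω hω
        refine tendsto_const_nhds.congr' ?_
        obtain ⟨N, hN⟩ := exists_nat_ge (X ω)
        filter_upwards [eventually_ge_atTop N] with M hM
        have hω' : 0 ≤ X ω := hω
        rw [max_eq_left hω', min_eq_left (hN.trans (by exact_mod_cast hM))]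
    refine le_of_tendsto h1 (Filter.Eventually.of_forall fun M => ?_)
    rw [← ofReal_integral_eq_lintegral_ofReal]
    · exact ENNReal.ofReal_le_ofReal (htr M)
    · refine Integrable.of_bound ((hX.max aemeasurable_const).min aemeasurable_const).aestronglyMeasurable
        (M : ℝ) (Filter.Eventually.of_forall fun ω => ?_)
      rw [Real.norm_eq_abs, abs_of_nonneg (le_min (le_max_right _ _) (Nat.cast_nonneg M))]
      exact min_le_right _ _
    · exact Filter.Eventually.of_forall fun ω => le_min (le_max_right _ _) (Nat.cast_nonneg M)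
  have hXint : Integrable X P := by
    refine ⟨hX.aestronglyMeasurable, ?_⟩
    rw [hasFiniteIntegral_iff_ofReal hnn]
    exact hlin.trans_lt ENNReal.ofReal_lt_top
  refine ⟨hnn, hXint, ?_⟩
  rw [integral_eq_lintegral_of_nonneg_ae hnn hX.aestronglyMeasurable]
  exact ENNReal.toReal_le_of_le_ofReal (by norm_num) hlin

end Pool.Agent.Q287.SA
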